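import Mathlib

/-!
# Spaces which are `G`-equivalent to the Cantor set

We construct a function `h` from the Cantor set to the real line whose graph meets every closed
subset of the product with projection of size continuum. The clopen subsets of the graph are the
preimages of the clopen subsets of the Cantor set. So for zero-dimensional groups `G` the
continuous functions from the graph to `G` are the same as those on the Cantor set.
-/

set_option autoImplicit false

namespace Pool.Agent.V11182.GEq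

open Cardinal Set Topology Filter TopologicalSpace

universe u

/-- injective choice functions -/
theorem exists_injective_choice {I K : Type u} (c : Cardinal.{u}) (hI : #I ≤ c) (S : I → Set K)
    (hS : ∀ i, c ≤ #(S i)) : ∃ x : I → K, Function.Injective x ∧ ∀ i, x i ∈ S i := by
  classical
  obtain ⟨r, wo, hr⟩ := Cardinal.exists_ord_eq I
  have hlt : ∀ i, #{j // r j i} < c := fun i => (Cardinal.card_typein_lt i hr).trans_le hI
  have hex : ∀ (i : I) (g : {j // r j i} → K), ∃ y ∈ S i, ∀ j, g j ≠ y := by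
    intro i g
    by_contra hcon
    push Not at hcon
    have hsub : S i ⊆ range g := fun y hy => hcon y hy
    have h1 := (mk_le_mk_of_subset hsub).trans mk_range_le
    exact absurd ((hS i).trans h1) (not_le.2 (hlt i))
  choose F hF1 hF2 using hex
  let x : I → K := wo.wf.fix (fun i rec => F i (fun j => rec j.1 j.2))
  have hx : ∀ i, x i = F i (fun j => x j.1) := fun i => wo.wf.fix_eq _ i
  refine ⟨x, ?_, fun i => by rw [hx]; exact hF1 _ _⟩
  intro i j hij
  rcases trichotomous_of r i j with h | h | h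
  · exfalso
    have := hF2 j (fun k => x k.1) ⟨i, h⟩
    rw [← hx j] at this
    exact this hij
  · exact h
  · exfalso
    have := hF2 i (fun k => x k.1) ⟨j, h⟩
    rw [← hx i] at this
    exact this hij.symm

/-- a second countable space has at most continuum many closed sets -/
theorem mk_closed_le (X : Type) [TopologicalSpace X] [SecondCountableTopology X] :
    #{F : Set X // IsClosed F} ≤ 𝔠 := by
  have hb := isBasis_countableBasis X
  have hbc := countable_countableBasis X
  have h1 : #{F : Set X // IsClosed F} ≤ #(Set (countableBasis X)) := by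
    refine mk_le_of_injective
      (f := fun F => {B : countableBasis X | B.1 ⊆ F.1ᶜ}) ?_
    intro F F' hFF
    have hop : IsOpen F.1ᶜ := F.2.isOpen_compl
    have hop' : IsOpen F'.1ᶜ := F'.2.isOpen_compl
    have e1 := hb.open_eq_sUnion' hop
    have e2 := hb.open_eq_sUnion' hop'
    have e3 : {s | s ∈ countableBasis X ∧ s ⊆ F.1ᶜ} = {s | s ∈ countableBasis X ∧ s ⊆ F'.1ᶜ} := by
      ext s
      constructor
      · rintro ⟨h1, h2⟩
        have : (⟨s, h1⟩ : countableBasis X) ∈ {B : countableBasis X | B.1 ⊆ F.1ᶜ} := h2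
        have h3 : (⟨s, h1⟩ : countableBasis X) ∈ {B : countableBasis X | B.1 ⊆ F'.1ᶜ} := by
          have hFF' : {B : countableBasis X | B.1 ⊆ F.1ᶜ} = {B : countableBasis X | B.1 ⊆ F'.1ᶜ} :=
            hFF
          rw [← hFF']
          exact this
        exact ⟨h1, h3⟩
      · rintro ⟨h1, h2⟩
        have : (⟨s, h1⟩ : countableBasis X) ∈ {B : countableBasis X | B.1 ⊆ F'.1ᶜ} := h2
        have h3 : (⟨s, h1⟩ : countableBasis X) ∈ {B : countableBasis X | B.1 ⊆ F.1ᶜ} := by
          have hFF' : {B : countableBasis X | B.1 ⊆ F.1ᶜ} = {B : countableBasis X | B.1 ⊆ F'.1ᶜ} :=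
            hFF
          rw [hFF']
          exact this
        exact ⟨h1, h3⟩
    rw [e3, ← e2] at e1
    exact Subtype.ext (compl_injective e1)
  refine h1.trans ?_
  rw [mk_set]
  have h2 : #(countableBasis X) ≤ ℵ₀ := hbc.le_aleph0
  calc (2 : Cardinal) ^ #(countableBasis X) ≤ 2 ^ ℵ₀ := power_le_power_left two_ne_zero h2
    _ = 𝔠 := two_power_aleph0

/-- The Cantor set. -/
abbrev K : Type := ℕ → Bool

theorem mk_K : #K = 𝔠 := by simp [K]

/-- Nonempty open subsets of the Cantor set have the cardinality of the continuum. -/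
theorem mk_open {M : Set K} (hM : IsOpen M) (hne : M.Nonempty) : #M = 𝔠 := by
  classical
  refine le_antisymm ((mk_set_le M).trans mk_K.le) ?_
  obtain ⟨x, hx⟩ := hne
  obtain ⟨I, u, h1, h2⟩ := isOpen_pi_iff.1 hM x hx
  obtain ⟨n, hn⟩ : ∃ n, ∀ i ∈ I, i < n := ⟨I.sup id + 1, fun i hi =>
    Nat.lt_succ_of_le (Finset.le_sup (f := id) hi)⟩
  rw [← mk_K]
  refine mk_le_of_injective
    (f := fun z : K => (⟨fun i => if i < n then x i else z (i - n), h2 ?_⟩ : M)) ?_
  · intro i hi
    have : i < n := hn i hi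
    simp only [this, if_true]
    exact (h1 i hi).2
  · intro z z' hzz
    funext i
    have h3 := congrArg (fun w : M => w.1 (i + n)) hzz
    simpa using h3

/-- **A Bernstein-type function.** -/
theorem exists_fun : ∃ h : K → ℝ, ∀ F : Set (K × ℝ), IsClosed F → #(Prod.fst '' F) = 𝔠 →
    ∃ x, (x, h x) ∈ F := by
  classical
  let I : Type := {F : Set (K × ℝ) // IsClosed F ∧ #(Prod.fst '' F) = 𝔠}
  have hI : #I ≤ 𝔠 := by
    refine le_trans ?_ (mk_closed_le (K × ℝ))
    exact mk_le_of_injective (f := fun F : I => (⟨F.1, F.2.1⟩ : {F : Set (K × ℝ) // IsClosed F}))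
      (fun F F' hFF => Subtype.ext (congrArg (fun z : {F : Set (K × ℝ) // IsClosed F} => z.1) hFF))
  obtain ⟨x, hx1, hx2⟩ := exists_injective_choice 𝔠 hI (fun F : I => Prod.fst '' F.1)
    (fun F => F.2.2.ge)
  have hy : ∀ F : I, ∃ r : ℝ, (x F, r) ∈ F.1 := by
    intro F
    obtain ⟨⟨a, r⟩, h1, h2⟩ := hx2 F
    exact ⟨r, by rw [← h2]; exact h1⟩
  choose r hr using hy
  refine ⟨fun a => if h : ∃ F : I, x F = a then r h.choose else 0, fun F hF hc => ?_⟩
  let F' : I := ⟨F, hF, hc⟩
  refine ⟨x F', ?_⟩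
  have h : ∃ F'' : I, x F'' = x F' := ⟨F', rfl⟩
  have h2 : h.choose = F' := hx1 h.choose_spec
  simp only [h, dif_pos]
  rw [h2]
  exact hr F'

/-- the graph of a function -/
abbrev Gr (h : K → ℝ) : Type := {q : K × ℝ // q.2 = h q.1}

/-- The points of the graph. -/
def e (h : K → ℝ) (x : K) : Gr h := ⟨(x, h x), rfl⟩

theorem eq_e {h : K → ℝ} (q : Gr h) : e h q.1.1 = q :=
  Subtype.ext (Prod.ext rfl q.2.symm)

section

variable {h : K → ℝ} (hh : ∀ F : Set (K × ℝ), IsClosed F → #(Prod.fst '' F) = 𝔠 →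
    ∃ x, (x, h x) ∈ F)

include hh

/-- the graph is dense -/
theorem dense_graph {W : Set (K × ℝ)} (hW : IsOpen W) (hne : W.Nonempty) :
    ∃ x, (x, h x) ∈ W := by
  obtain ⟨⟨a, r⟩, ha⟩ := hne
  obtain ⟨u, v, hu, hv, h1, h2, h3⟩ := isOpen_prod_iff.1 hW a r ha
  -- a closed neighbourhood of the point `a` inside `u`
  obtain ⟨s, hs1, hs2, hs3⟩ := (hu.mem_nhds h1 |> exists_mem_nhds_isClosed_subset)
  obtain ⟨x, hx⟩ := hh (s ×ˢ {r}) (hs2.prod isClosed_singleton) (by
    have e1 : Prod.fst '' (s ×ˢ {r}) = s := by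
      ext x
      simp
    rw [e1]
    have h4 : #(interior s) = 𝔠 := mk_open isOpen_interior ⟨a, mem_interior_iff_mem_nhds.2 hs1⟩
    refine le_antisymm ((mk_set_le s).trans mk_K.le) ?_
    rw [← h4]
    exact mk_le_mk_of_subset interior_subset)
  exact ⟨x, h3 ⟨hs3 hx.1, by rw [show (x, h x).2 = r from hx.2]; exact h2⟩⟩

/-- clopen subsets of the graph come from open subsets of the Cantor set -/
theorem isOpen_of_isClopen {U : Set (Gr h)} (hU : IsClopen U) : IsOpen {x | e h x ∈ U} := by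
  obtain ⟨U', hU'1, hU'2⟩ := isOpen_induced_iff.1 hU.isOpen
  obtain ⟨V', hV'1, hV'2⟩ := isOpen_induced_iff.1 hU.compl.isOpen
  have hUiff : ∀ x, (x, h x) ∈ U' ↔ e h x ∈ U := fun x => by
    rw [← hU'2]; rfl
  have hViff : ∀ x, (x, h x) ∈ V' ↔ e h x ∉ U := fun x => by
    rw [← mem_compl_iff, ← hV'2]; rfl
  have hdisj : ∀ q, q ∈ U' → q ∉ V' := by
    intro q hq1 hq2
    obtain ⟨x, hx⟩ := dense_graph hh (hU'1.inter hV'1) ⟨q, hq1, hq2⟩
    exact (hViff x).1 hx.2 ((hUiff x).1 hx.1)
  have hF : #(Prod.fst '' (U' ∪ V')ᶜ) ≠ 𝔠 := by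
    intro hc
    obtain ⟨x, hx⟩ := hh _ (hU'1.union hV'1).isClosed_compl hc
    apply hx
    by_cases hxU : e h x ∈ U
    · exact Or.inl ((hUiff x).2 hxU)
    · exact Or.inr ((hViff x).2 hxU)
  have hF2 : #(Prod.fst '' (U' ∪ V')ᶜ) < 𝔠 :=
    lt_of_le_of_ne ((mk_set_le _).trans mk_K.le) hF
  rw [isOpen_iff_mem_nhds]
  intro x0 hx0
  obtain ⟨N, J, hN, hJ, h1, h2, h3⟩ := isOpen_prod_iff.1 hU'1 x0 (h x0) ((hUiff x0).2 hx0)
  refine mem_of_superset (hN.mem_nhds h1) fun x hx => ?_
  by_contra hxU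
  obtain ⟨M, J', hM, hJ', h4, h5, h6⟩ := isOpen_prod_iff.1 hV'1 x (h x) ((hViff x).2 hxU)
  have hMN : #(M ∩ N : Set K) = 𝔠 := mk_open (hM.inter hN) ⟨x, h4, hx⟩
  have hex : ∃ x' ∈ M ∩ N, x' ∉ Prod.fst '' (U' ∪ V')ᶜ := by
    by_contra hcon
    push Not at hcon
    have := mk_le_mk_of_subset (s := M ∩ N) (t := Prod.fst '' (U' ∪ V')ᶜ) hcon
    rw [hMN] at this
    exact absurd hF2 (not_lt.2 this)
  obtain ⟨x', ⟨hx'M, hx'N⟩, hx'⟩ := hex
  have hcov : ∀ r : ℝ, (x', r) ∈ U' ∨ (x', r) ∈ V' := by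
    intro r
    by_contra hcon
    exact hx' ⟨(x', r), hcon, rfl⟩
  have hclopen : IsClopen {r : ℝ | (x', r) ∈ U'} := by
    constructor
    · rw [← isOpen_compl_iff]
      have : {r : ℝ | (x', r) ∈ U'}ᶜ = {r : ℝ | (x', r) ∈ V'} := by
        ext r
        constructor
        · intro hr
          exact (hcov r).resolve_left hr
        · intro hr hr2
          exact hdisj _ hr2 hr
      rw [this]
      exact hV'1.preimage (by fun_prop)
    · exact hU'1.preimage (by fun_prop)
  rcases isClopen_iff.1 hclopen with h7 | h7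
  · have : h x0 ∈ {r : ℝ | (x', r) ∈ U'} := h3 ⟨hx'N, h2⟩
    rw [h7] at this
    exact this
  · have h8 : h x ∈ {r : ℝ | (x', r) ∈ U'} := by rw [h7]; trivial
    exact hdisj _ h8 (h6 ⟨hx'M, h5⟩)

/-- continuous maps on the graph to zero-dimensional spaces are continuous on the Cantor set -/
theorem continuous_comp_e {G : Type u} [TopologicalSpace G]
    (hG : IsTopologicalBasis {s : Set G | IsClopen s}) {g : Gr h → G} (hg : Continuous g) :
    Continuous fun x => g (e h x) := by
  rw [hG.continuous_iff]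
  intro s hs
  exact isOpen_of_isClopen hh (hs.preimage hg)

/-- the graph is unbounded in every direction -/
theorem exists_height (r : ℝ) : ∃ q : Gr h, q.1.2 = r := by
  obtain ⟨x, hx⟩ := hh (Set.univ ×ˢ {r}) (isClosed_univ.prod isClosed_singleton) (by
    have e1 : Prod.fst '' ((Set.univ : Set K) ×ˢ ({r} : Set ℝ)) = Set.univ := by
      ext x
      simp
    rw [e1, mk_univ, mk_K])
  exact ⟨e h x, hx.2⟩

end

/-- interpolation on the Cantor set -/
theorem interpolate {G : Type u} [TopologicalSpace G] [Inhabited G] (I : Finset K) (g : K → G) :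
    ∃ f : K → G, Continuous f ∧ ∀ x ∈ I, f x = g x := by
  classical
  -- separate the points of `I`
  have hsep : ∃ n : ℕ, ∀ x ∈ I, ∀ y ∈ I, (∀ i < n, x i = y i) → x = y := by
    have h1 : ∀ q : K × K, ∃ n : ℕ, (∀ i < n, q.1 i = q.2 i) → q.1 = q.2 := by
      intro q
      by_cases h : q.1 = q.2
      · exact ⟨0, fun _ => h⟩
      · obtain ⟨i, hi⟩ := Function.ne_iff.1 h
        exact ⟨i + 1, fun h' => absurd (h' i (Nat.lt_succ_self i)) hi⟩
    choose n hn using h1
    refine ⟨(I ×ˢ I).sup n, fun x hx y hy hxy => ?_⟩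
    refine hn (x, y) fun i hi => hxy i (hi.trans_le ?_)
    exact Finset.le_sup (f := n) (Finset.mk_mem_product hx hy)
  obtain ⟨n, hn⟩ := hsep
  let φ : (Fin n → Bool) → G := fun v => if h : ∃ x ∈ I, ∀ i : Fin n, x i = v i then g h.choose
    else default
  refine ⟨fun y => φ fun i => y i, ?_, fun x hx => ?_⟩
  · exact (continuous_of_discreteTopology (f := φ)).comp
      (continuous_pi fun i => continuous_apply _)
  · have h : ∃ x' ∈ I, ∀ i : Fin n, x' i = x i := ⟨x, hx, fun _ => rfl⟩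
    have h2 : h.choose = x :=
      hn _ h.choose_spec.1 _ hx fun i hi => h.choose_spec.2 ⟨i, hi⟩
    simp only [φ]
    rw [dif_pos h, h2]

end Pool.Agent.V11182.GEq
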